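import Pool.Agent.helper93.TV.Spec3

/-!
# Row AA: the number of categories over one fusion ring
-/

set_option autoImplicit false

namespace Pool.Agent.helper93.TV

open BigOperators Finset

theorem AA_num (r n M κ : ℕ) (hr : 1 ≤ r) (hrn : r ≤ n) (hn : n ≤ M) (hM : 2 ≤ M)
    (hκ : κ ≤ n ^ 4) : ((12 * r ^ 2 + 6 * r + 4) * (2 * κ)) ^ (2 * κ) ≤ M ^ (24 * κ) := by
  have h1 : (12 * r ^ 2 + 6 * r + 4) ≤ 22 * M ^ 2 := by
    have a1 : r ≤ r ^ 2 := Nat.le_self_pow (by norm_num) r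
    have a2 : 1 ≤ r ^ 2 := Nat.one_le_pow _ _ hr
    have a3 : r ^ 2 ≤ M ^ 2 := Nat.pow_le_pow_left (hrn.trans hn) 2
    omega
  have h2 : 2 * κ ≤ 2 * M ^ 4 := by
    have := Nat.pow_le_pow_left hn 4
    omega
  have h3 : (12 * r ^ 2 + 6 * r + 4) * (2 * κ) ≤ M ^ 12 := by
    calc (12 * r ^ 2 + 6 * r + 4) * (2 * κ) ≤ (22 * M ^ 2) * (2 * M ^ 4) := Nat.mul_le_mul h1 h2
      _ = 44 * M ^ 6 := by ring
      _ ≤ M ^ 6 * M ^ 6 := by
          apply Nat.mul_le_mul_right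
          calc 44 ≤ 2 ^ 6 := by norm_num
            _ ≤ M ^ 6 := Nat.pow_le_pow_left hM 6
      _ = M ^ 12 := by ring
  calc ((12 * r ^ 2 + 6 * r + 4) * (2 * κ)) ^ (2 * κ) ≤ (M ^ 12) ^ (2 * κ) :=
        Nat.pow_le_pow_left h3 _
    _ = M ^ (24 * κ) := by rw [← pow_mul]; congr 1; ring

theorem AA : AA_stmt := by
  intro hFDO hRG hFRI hKQ hPT hMO hME hONE C o d X M hC ho hd hgen hn hM k E hE hring hne
  obtain ⟨D, e1, e2, e3, e4, e5, hD⟩ := hFDO C o d hC
  have hRg := hRG _ _ D C.F hD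
  obtain ⟨_, _, hr⟩ := hFRI C o d hC
  have h := fun i => hMO C (E i) o d D hC e1 e2 e3 e4 e5 (hE i) (hring i)
  choose F hF using h
  have hG : ∀ b, D.Gen (X : Set (Fin C.r)) b := by
    intro b
    have hb := hgen b
    induction hb with
    | unit => rw [← e4]; exact FD.Gen.unit
    | mul v _ h2 ih =>
      rw [← e3]
      rw [← e1] at ih
      rw [← e2] at h2
      exact FD.Gen.mul v ih h2
  obtain ⟨hcnt, bp, hbp⟩ := hPT _ _ D X C.r hRg (by rw [e4]; exact ho)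
    (fun x hx => by rw [e5]; exact hd x hx) hG (by rw [Fintype.card_fin])
  have hr1 : 1 ≤ C.r := by
    have := o.2
    omega
  have hone := hONE _ _ D X C.r bp hr1 hcnt hbp k F (fun i => (hF i).1) (fun i j hij hg =>
    hne i j hij (hME (E i) (E j) _ _ D (F i) (F j) (hF i).1.uf (hF j).1.uf (hF i).2 (hF j).2 hg))
  obtain ⟨hk1, hk2⟩ := hKQ _ _ D X hRg
  have hkap : D.kap X = C.kappa X := by
    have e : ∀ a b c, D.mlt a b c = C.mult a b c := by
      intro a b c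
      unfold FD.mlt SkelCat.mult
      rw [e1, e2, e3]
    unfold FD.kap SkelCat.kappa
    simp only [e]
  rw [Fintype.card_fin] at hk2
  rw [hk1, hkap] at hone
  rw [hkap] at hk2
  exact hone.trans (AA_num C.r C.n M (C.kappa X) hr1 hr hn hM hk2)

end Pool.Agent.helper93.TV
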