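import Pool.Agent.helper93.TV.Spec2

/-!
# Row DX: the category is reconstructed from its connection
-/

set_option autoImplicit false
set_option linter.unusedSectionVars false

namespace Pool.Agent.helper93.TV

open BigOperators Finset Matrix

section
variable {I V : Type} [Fintype I] [DecidableEq I] [Fintype V] [DecidableEq V]

theorem DX_okuniv (D : FD I V) (X : Finset I) (a : I) (p : List V) (h : D.ok X a p) :
    D.ok univ a p := by
  induction p generalizing a with
  | nil => trivial
  | cons e p ih => exact ⟨h.1, mem_univ _, ih _ h.2.2⟩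

theorem DX_first (D : FD I V) (X Y : Finset I) (a b : I) (p : List V) (hp : p ≠ [])
    (h : D.ok X a p) (h' : D.ok Y b p) : a = b := by
  cases p with
  | nil => exact absurd rfl hp
  | cons e p => exact h.1.symm.trans h'.1

theorem DX_col (hTU : TU_out) (D : FD I V) (X : Finset I) (F : V → V → V → V → ℂ)
    (hF : D.UFS F) (m : ℕ) (bp : I → List V) (hm : 1 ≤ m) (hB : D.Base X m bp) (δ κ : V) :
    ∑ p ∈ lists V m, star (tp F (D.rho (D.s1 δ)) p (bp (D.s2 δ)) δ) *
      tp F (D.rho (D.s1 δ)) p (bp (D.s2 δ)) κ = if δ = κ then 1 else 0 := by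
  obtain ⟨b1, b2, b3⟩ := hB (D.s2 δ)
  have h := (hTU I V D univ F hF.uf.conn m).2 (bp (D.s2 δ)) δ (bp (D.s2 δ)) κ (mem_univ _) b1 b1
    ⟨D.o, DX_okuniv D X _ _ b2, b3⟩
  rw [sum_eq_single (D.rho (D.s1 δ))] at h
  · rw [h]
    simp
  · intro l _ hl
    apply sum_eq_zero
    intro p _
    by_contra hne
    have h1 := left_ne_zero_of_mul hne
    have h2 : tp F l p (bp (D.s2 δ)) δ ≠ 0 := fun h => h1 (by rw [h, star_zero])
    obtain ⟨_, c2, c3, _⟩ := tp_supp D univ F hF.uf.conn _ _ _ _ h2
    have hne' : bp (D.s2 δ) ≠ [] := by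
      intro h0
      rw [mem_lists, h0] at b1
      simp at b1
      omega
    have h4 := DX_first D _ _ _ _ _ hne' b2 c2
    have h5 := D.rho_unique l h4.symm
    rw [c3] at h5
    exact hl h5
  · intro h0
    exact absurd (mem_univ _) h0

theorem DX_inner (D : FD I V) (F : V → V → V → V → ℂ) (m : ℕ) (bp : I → List V)
    (J : V → List V → ℂ) (hb : ∀ b, bp b ∈ lists V m) (β : V) (a : I) (p w : List V) :
    D.phiF F m (2 * m) (D.Tb m bp J β) a p w =
      ∑ κ, tp F (D.rho a) p (bp (D.t β)) κ *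
        ∑ q ∈ lists V m, J β q * star (tp F (D.rho a) w (bp (D.s1 β) ++ q) κ) := by
  unfold FD.phiF
  rw [sum_eq_single (bp (D.t β))]
  · have e2 : 2 * m = m + m := by ring
    rw [e2, sum_lists_add, sum_eq_single (bp (D.s1 β))]
    · rw [sum_comm]
      apply sum_congr rfl
      intro κ _
      rw [mul_sum]
      apply sum_congr rfl
      intro q _
      have h1 := hb (D.s1 β)
      rw [mem_lists] at h1
      unfold FD.Tb
      rw [List.take_left' h1, List.drop_left' h1, if_pos ⟨rfl, rfl⟩]
      ring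
    · intro p' hp' hne
      apply sum_eq_zero
      intro q _
      apply sum_eq_zero
      intro κ _
      rw [mem_lists] at hp'
      unfold FD.Tb
      rw [List.take_left' hp', if_neg (fun h => hne h.2)]
      ring
    · intro h
      exact absurd (hb _) h
  · intro p₀ _ hne
    apply sum_eq_zero
    intro q _
    apply sum_eq_zero
    intro κ _
    unfold FD.Tb
    rw [if_neg (fun h => hne h.1)]
    ring
  · intro h
    exact absurd (hb _) h

end

theorem DX : DX_stmt := by
  intro hPC hSR _ hDW hDJ hTU _ _ _ _ _ _ hDR _ I V _ _ _ _ D X F hF m bp hm hcnt hB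
  obtain ⟨hflat, hphi⟩ := hDW I V D X F hF m hcnt
  have hJ := hDJ I V D X F hF m bp hcnt hB
  have hCtx : D.Ctx X (D.restr X F) m bp := ⟨hflat, hcnt, hB, hm⟩
  have hK := hPC I V D X (D.restr X F) m hflat hcnt
  obtain ⟨hop, hsr⟩ := hSR I V D X _ m bp _ hCtx hK hJ
  have hb : ∀ b, bp b ∈ lists V m := fun b => (hB b).1
  have hconn := hF.uf.conn
  -- step 1
  have hR : ∀ β δ w, D.t β = D.s2 δ → D.Rv X (D.restr X F) m bp (D.J0 F bp) β δ w =
      ∑ q ∈ lists V m, D.J0 F bp β q *
        star (tp F (D.rho (D.s1 δ)) w (bp (D.s1 β) ++ q) δ) := by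
    intro β δ w hβδ
    unfold FD.Rv
    rw [hphi m (2 * m) _ (hop β)]
    have e1 : ∀ p ∈ lists V m, D.J0 F bp δ p *
        D.phiF F m (2 * m) (D.Tb m bp (D.J0 F bp) β) (D.s1 δ) p w =
        ∑ κ, (star (tp F (D.rho (D.s1 δ)) p (bp (D.s2 δ)) δ) *
          tp F (D.rho (D.s1 δ)) p (bp (D.s2 δ)) κ) *
          ∑ q ∈ lists V m, D.J0 F bp β q *
            star (tp F (D.rho (D.s1 δ)) w (bp (D.s1 β) ++ q) κ) := by
      intro p _
      rw [DX_inner D F m bp _ hb, mul_sum, hβδ]
      apply sum_congr rfl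
      intro κ _
      rw [← mul_assoc]
      rfl
    rw [sum_congr rfl e1, sum_comm]
    have e2 : ∀ κ ∈ (univ : Finset V), ∑ p ∈ lists V m,
        (star (tp F (D.rho (D.s1 δ)) p (bp (D.s2 δ)) δ) *
          tp F (D.rho (D.s1 δ)) p (bp (D.s2 δ)) κ) *
          ∑ q ∈ lists V m, D.J0 F bp β q *
            star (tp F (D.rho (D.s1 δ)) w (bp (D.s1 β) ++ q) κ) =
        if δ = κ then ∑ q ∈ lists V m, D.J0 F bp β q *
            star (tp F (D.rho (D.s1 δ)) w (bp (D.s1 β) ++ q) κ) else 0 := by
      intro κ _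
      rw [← sum_mul, DX_col hTU D X F hF m bp hm hB, ite_mul, one_mul, zero_mul]
    rw [sum_congr rfl e2, sum_ite_eq]
    simp
  -- step 2
  have hL : ∀ α γ, D.t α = D.s1 γ → ∀ p ∈ lists V m, ∀ q₁ ∈ lists V m,
      ∑ β, ∑ δ, F α γ β δ * D.Rv X (D.restr X F) m bp (D.J0 F bp) β δ (p ++ q₁) =
        D.J0 F bp α p * D.J0 F bp γ q₁ := by
    intro α γ hαγ p hp q₁ hq₁
    have hlen : p.length = (bp (D.s2 α)).length := by
      have h1 := hb (D.s2 α)
      rw [mem_lists] at h1 hp
      rw [h1, hp]
    -- rewrite every term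
    have e1 : ∀ β δ, F α γ β δ * D.Rv X (D.restr X F) m bp (D.J0 F bp) β δ (p ++ q₁) =
        ∑ α', star (tp F (D.rho (D.s1 α)) p (bp (D.s2 α)) α') *
          (F α γ β δ * star (∑ γ', tp F (D.rho (D.t α')) q₁ (bp (D.s2 γ)) γ' * F α' γ' β δ)) := by
      intro β δ
      by_cases h0 : F α γ β δ = 0
      · rw [h0, zero_mul]
        symm
        apply sum_eq_zero
        intro α' _
        ring
      · obtain ⟨⟨_, c2, c3, c4, c5, c6⟩, _⟩ := hconn.supp _ _ _ _ h0
        rw [hR β δ _ c2]
        have e2 : ∀ q ∈ lists V m, D.J0 F bp β q *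
            star (tp F (D.rho (D.s1 δ)) (p ++ q₁) (bp (D.s1 β) ++ q) δ) =
            ∑ α', star (tp F (D.rho (D.s1 α)) p (bp (D.s2 α)) α') *
              star (tp F α' q₁ q δ * tp F (D.rho (D.s2 α)) q (bp (D.s2 γ)) β) := by
          intro q _
          rw [← c3, ← c4, tp_append F _ _ _ _ _ _ hlen, star_sum, mul_sum]
          apply sum_congr rfl
          intro α' _
          unfold FD.J0
          rw [← c4, ← c5, star_mul', star_mul']
          ring
        rw [sum_congr rfl e2, sum_comm, mul_sum]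
        apply sum_congr rfl
        intro α' _
        rw [← mul_sum, ← star_sum]
        by_cases h1 : tp F (D.rho (D.s1 α)) p (bp (D.s2 α)) α' = 0
        · rw [h1]
          simp
        · obtain ⟨_, _, _, d4, _⟩ := tp_supp D univ F hconn _ _ _ _ h1
          rw [D.s2_rho, (hB (D.s2 α)).2.2] at d4
          have hdr := hDR I V D F hF m α' q₁ hq₁ (bp (D.s2 γ)) (hb _) β δ
          rw [d4] at hdr
          rw [hdr]
          ring
    rw [sum_congr rfl fun β _ => sum_congr rfl fun δ _ => e1 β δ]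
    -- exchange the sums
    have e3 : ∑ β, ∑ δ, ∑ α', star (tp F (D.rho (D.s1 α)) p (bp (D.s2 α)) α') *
          (F α γ β δ * star (∑ γ', tp F (D.rho (D.t α')) q₁ (bp (D.s2 γ)) γ' * F α' γ' β δ)) =
        ∑ α', ∑ γ', star (tp F (D.rho (D.s1 α)) p (bp (D.s2 α)) α') *
          star (tp F (D.rho (D.t α')) q₁ (bp (D.s2 γ)) γ') *
          ∑ β, ∑ δ, F α γ β δ * star (F α' γ' β δ) := by
      have s1 : ∀ β δ α', star (tp F (D.rho (D.s1 α)) p (bp (D.s2 α)) α') *
          (F α γ β δ * star (∑ γ', tp F (D.rho (D.t α')) q₁ (bp (D.s2 γ)) γ' * F α' γ' β δ)) =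
          ∑ γ', star (tp F (D.rho (D.s1 α)) p (bp (D.s2 α)) α') *
            star (tp F (D.rho (D.t α')) q₁ (bp (D.s2 γ)) γ') *
            (F α γ β δ * star (F α' γ' β δ)) := by
        intro β δ α'
        rw [star_sum, mul_sum, mul_sum]
        apply sum_congr rfl
        intro γ' _
        rw [star_mul']
        ring
      simp only [s1]
      calc ∑ β, ∑ δ, ∑ α', ∑ γ', star (tp F (D.rho (D.s1 α)) p (bp (D.s2 α)) α') *
            star (tp F (D.rho (D.t α')) q₁ (bp (D.s2 γ)) γ') *
            (F α γ β δ * star (F α' γ' β δ))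
          = ∑ β, ∑ α', ∑ δ, ∑ γ', star (tp F (D.rho (D.s1 α)) p (bp (D.s2 α)) α') *
            star (tp F (D.rho (D.t α')) q₁ (bp (D.s2 γ)) γ') *
            (F α γ β δ * star (F α' γ' β δ)) := by
            apply sum_congr rfl
            intro β _
            rw [sum_comm]
        _ = ∑ α', ∑ β, ∑ δ, ∑ γ', star (tp F (D.rho (D.s1 α)) p (bp (D.s2 α)) α') *
            star (tp F (D.rho (D.t α')) q₁ (bp (D.s2 γ)) γ') *
            (F α γ β δ * star (F α' γ' β δ)) := sum_comm
        _ = ∑ α', ∑ β, ∑ γ', ∑ δ, star (tp F (D.rho (D.s1 α)) p (bp (D.s2 α)) α') *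
            star (tp F (D.rho (D.t α')) q₁ (bp (D.s2 γ)) γ') *
            (F α γ β δ * star (F α' γ' β δ)) := by
            apply sum_congr rfl
            intro α' _
            apply sum_congr rfl
            intro β _
            rw [sum_comm]
        _ = ∑ α', ∑ γ', ∑ β, ∑ δ, star (tp F (D.rho (D.s1 α)) p (bp (D.s2 α)) α') *
            star (tp F (D.rho (D.t α')) q₁ (bp (D.s2 γ)) γ') *
            (F α γ β δ * star (F α' γ' β δ)) := by
            apply sum_congr rfl
            intro α' _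
            rw [sum_comm]
        _ = _ := by
            apply sum_congr rfl
            intro α' _
            apply sum_congr rfl
            intro γ' _
            rw [mul_sum]
            apply sum_congr rfl
            intro β _
            rw [mul_sum]
    rw [e3]
    have e4 : ∀ α' γ', ∑ β, ∑ δ, F α γ β δ * star (F α' γ' β δ) =
        if α = α' ∧ γ = γ' then 1 else 0 := fun α' γ' =>
      hconn.row α γ α' γ' hαγ (mem_univ _) (mem_univ _)
    simp only [e4]
    rw [sum_eq_single α]
    · rw [sum_eq_single γ]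
      · rw [if_pos ⟨rfl, rfl⟩, mul_one, hαγ]
        rfl
      · intro γ' _ hne
        rw [if_neg (fun h => hne h.2.symm), mul_zero]
      · intro h
        exact absurd (mem_univ _) h
    · intro α' _ hne
      apply sum_eq_zero
      intro γ' _
      rw [if_neg (fun h => hne h.1.symm), mul_zero]
    · intro h
      exact absurd (mem_univ _) h
  -- step 3
  funext α γ β₀ δ₀
  unfold FD.form
  by_cases hcp : D.cp α γ β₀ δ₀
  · rw [if_pos hcp]
    obtain ⟨a1, a2, a3, a4, a5, a6⟩ := hcp
    have e1 : ∀ w ∈ lists V (2 * m), Lv m (D.J0 F bp) α γ w *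
        star (D.Rv X (D.restr X F) m bp (D.J0 F bp) β₀ δ₀ w) =
        ∑ β, ∑ δ, F α γ β δ * (D.Rv X (D.restr X F) m bp (D.J0 F bp) β δ w *
          star (D.Rv X (D.restr X F) m bp (D.J0 F bp) β₀ δ₀ w)) := by
      intro w hw
      rw [mem_lists] at hw
      have e : w.take m ++ w.drop m = w := List.take_append_drop m w
      have h1 : w.take m ∈ lists V m := by
        rw [mem_lists, List.length_take, hw]
        omega
      have h2 : w.drop m ∈ lists V m := by
        rw [mem_lists, List.length_drop, hw]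
        omega
      have h3 := hL α γ a1 _ h1 _ h2
      rw [e] at h3
      unfold Lv
      rw [← h3, sum_mul]
      apply sum_congr rfl
      intro β _
      rw [sum_mul]
      apply sum_congr rfl
      intro δ _
      ring
    rw [sum_congr rfl e1]
    have e2 : ∑ w ∈ lists V (2 * m), ∑ β, ∑ δ, F α γ β δ *
          (D.Rv X (D.restr X F) m bp (D.J0 F bp) β δ w *
          star (D.Rv X (D.restr X F) m bp (D.J0 F bp) β₀ δ₀ w)) =
        ∑ β, ∑ δ, F α γ β δ * ∑ w ∈ lists V (2 * m),
          D.Rv X (D.restr X F) m bp (D.J0 F bp) β δ w *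
          star (D.Rv X (D.restr X F) m bp (D.J0 F bp) β₀ δ₀ w) := by
      rw [sum_comm]
      apply sum_congr rfl
      intro β _
      rw [sum_comm]
      apply sum_congr rfl
      intro δ _
      rw [mul_sum]
    rw [e2]
    have e3 : ∀ β δ, F α γ β δ * ∑ w ∈ lists V (2 * m),
          D.Rv X (D.restr X F) m bp (D.J0 F bp) β δ w *
          star (D.Rv X (D.restr X F) m bp (D.J0 F bp) β₀ δ₀ w) =
        F α γ β δ * (if β = β₀ ∧ δ = δ₀ then 1 else 0) := by
      intro β δ
      by_cases h0 : F α γ β δ = 0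
      · rw [h0, zero_mul, zero_mul]
      · obtain ⟨⟨_, c2, c3, c4, c5, c6⟩, _⟩ := hconn.supp _ _ _ _ h0
        rw [hsr β δ β₀ δ₀ (c4.symm.trans a4) (c5.symm.trans a5) (c3.symm.trans a3) c2 a2]
    simp only [e3]
    rw [sum_eq_single β₀]
    · rw [sum_eq_single δ₀]
      · rw [if_pos ⟨rfl, rfl⟩, mul_one]
      · intro δ _ hne
        rw [if_neg (fun h => hne h.2), mul_zero]
      · intro h
        exact absurd (mem_univ _) h
    · intro β _ hne
      apply sum_eq_zero
      intro δ _
      rw [if_neg (fun h => hne h.1), mul_zero]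
    · intro h
      exact absurd (mem_univ _) h
  · rw [if_neg hcp]
    by_contra hne
    exact hcp (hconn.supp _ _ _ _ (fun h => hne h.symm)).1

end Pool.Agent.helper93.TV
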