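import Pool.Agent.helper93.TV.Spec2

/-!
# Row SL: the vectors of the left combs are orthonormal; supports
-/

set_option autoImplicit false

namespace Pool.Agent.helper93.TV

open BigOperators Finset Matrix

theorem SL_op {I V : Type} [Fintype I] [DecidableEq I] [Fintype V] [DecidableEq V]
    (D : FD I V) (X : Finset I) (c : V → V → V → V → ℂ) (m : ℕ) (bp : I → List V)
    (J : V → List V → ℂ) (hC : D.Ctx X c m bp) (hJ : D.JS X c m bp J) (β : V) :
    D.Op X m (2 * m) (D.Tb m bp J β) := by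
  intro p w h
  unfold FD.Tb at h
  have h1 : (p = bp (D.t β) ∧ w.take m = bp (D.s1 β)) ∧ J β (w.drop m) ≠ 0 := by
    by_cases hh : p = bp (D.t β) ∧ w.take m = bp (D.s1 β)
    · rw [if_pos hh] at h
      exact ⟨hh, h⟩
    · rw [if_neg hh] at h
      exact absurd rfl h
  obtain ⟨⟨hp, hw⟩, hJw⟩ := h1
  obtain ⟨b1, b2, b3⟩ := hC.base (D.t β)
  obtain ⟨c1, c2, c3⟩ := hC.base (D.s1 β)
  obtain ⟨s1, s2, s3⟩ := hJ.supp β _ hJw
  rw [← hw] at c1 c2 c3
  rw [← hp] at b1 b2 b3
  rw [mem_lists] at c1 s1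
  have e : w.take m ++ w.drop m = w := List.take_append_drop m w
  refine ⟨b1, ?_, b2, ?_, ?_⟩
  · rw [mem_lists, ← e, List.length_append, c1, s1]
    ring
  · rw [← e, ok_append, c3]
    exact ⟨c2, s2⟩
  · rw [b3, ← e, en_append, c3, s3]

theorem SL : SL_stmt := by
  intro I V _ _ _ _ D X c m bp J hC hK hJ
  refine ⟨?_, ?_, ?_⟩
  · intro α γ α' γ' h1 h2 h3 h4 h5
    have e2 : 2 * m = m + m := by ring
    rw [e2, sum_lists_add]
    have e : ∀ p ∈ lists V m, ∀ q ∈ lists V m,
        Lv m J α γ (p ++ q) * star (Lv m J α' γ' (p ++ q)) =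
        (J α p * star (J α' p)) * (J γ q * star (J γ' q)) := by
      intro p hp q _
      rw [mem_lists] at hp
      unfold Lv
      rw [List.take_left' hp, List.drop_left' hp, star_mul']
      ring
    rw [sum_congr rfl fun p hp => sum_congr rfl fun q hq => e p hp q hq]
    rw [← sum_mul_sum, hJ.orth α α' h1 h2]
    by_cases hα : α = α'
    · subst hα
      rw [hJ.orth γ γ' (h4.symm.trans h5) h3]
      simp
    · rw [if_neg hα, zero_mul, if_neg (fun h => hα h.1)]
  · intro α γ w hw h1 h2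
    unfold Lv at h2
    obtain ⟨a1, a2, a3⟩ := hJ.supp α _ (left_ne_zero_of_mul h2)
    obtain ⟨b1, b2, b3⟩ := hJ.supp γ _ (right_ne_zero_of_mul h2)
    have e : w.take m ++ w.drop m = w := List.take_append_drop m w
    constructor
    · rw [← e, ok_append, a3, h1]
      exact ⟨a2, b2⟩
    · rw [← e, en_append, a3, h1, b3]
  · intro β δ w h
    unfold FD.Rv at h
    obtain ⟨p, hp, h1⟩ := exists_ne_zero_of_sum_ne_zero h
    obtain ⟨s1, s2, s3⟩ := hJ.supp δ _ (left_ne_zero_of_mul h1)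
    have hf := (hK.fam m (by omega) (2 * m) (by omega) _ (SL_op D X c m bp J hC hJ β)).1
    obtain ⟨_, f2, _, f4, f5⟩ := hf.supp _ _ _ (right_ne_zero_of_mul h1)
    exact ⟨f2, f4, by rw [← f5, s3]⟩

end Pool.Agent.helper93.TV
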