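import Pool.Agent.helper93.TV.Spec3

/-!
# Row PT: paths of length `m` from the unit object to every object
-/

set_option autoImplicit false
set_option linter.unusedSectionVars false

namespace Pool.Agent.helper93.TV

open BigOperators Finset

section
variable {I V : Type} [Fintype I] [DecidableEq I] [Fintype V] [DecidableEq V]

/-- `b` is the end point of a right path of length `k` from the unit object. -/
def PT_R (D : FD I V) (X : Finset I) (k : ℕ) (b : I) : Prop :=
  ∃ p ∈ lists V k, D.ok X D.o p ∧ D.en D.o p = b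

theorem PT_zero (D : FD I V) (X : Finset I) : PT_R D X 0 D.o :=
  ⟨[], by rw [mem_lists]; rfl, trivial, rfl⟩

theorem PT_zero' (D : FD I V) (X : Finset I) (b : I) (h : PT_R D X 0 b) : b = D.o := by
  obtain ⟨p, hp, _, h2⟩ := h
  rw [mem_lists, List.length_eq_zero_iff] at hp
  subst hp
  exact h2.symm

theorem PT_succ (D : FD I V) (X : Finset I) (k : ℕ) (v : V) (h : PT_R D X k (D.s1 v))
    (hX : D.s2 v ∈ X) : PT_R D X (k + 1) (D.t v) := by
  obtain ⟨p, hp, h1, h2⟩ := h
  rw [mem_lists] at hp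
  refine ⟨p ++ [v], ?_, ?_, ?_⟩
  · rw [mem_lists, List.length_append, hp]
    rfl
  · rw [ok_append]
    exact ⟨h1, h2.symm, hX, trivial⟩
  · rw [en_append]
    rfl

theorem PT_succ' (D : FD I V) (X : Finset I) (k : ℕ) (b : I) (h : PT_R D X (k + 1) b) :
    ∃ v, PT_R D X k (D.s1 v) ∧ D.s2 v ∈ X ∧ D.t v = b := by
  obtain ⟨p, hp, h1, h2⟩ := h
  rw [mem_lists] at hp
  rcases List.eq_nil_or_concat p with h0 | ⟨q, v, h0⟩
  · rw [h0] at hp
    simp at hp
  · rw [List.concat_eq_append] at h0
    subst h0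
    rw [ok_append] at h1
    rw [en_append] at h2
    refine ⟨v, ⟨q, ?_, h1.1, h1.2.1.symm⟩, h1.2.2.1, h2⟩
    rw [mem_lists]
    rw [List.length_append] at hp
    simpa using hp

theorem PT_mono (D : FD I V) (X : Finset I) (ho : D.o ∈ X) (k : ℕ) (b : I)
    (h : PT_R D X k b) : PT_R D X (k + 1) b := by
  obtain ⟨p, hp, h1, h2⟩ := h
  rw [mem_lists] at hp
  have e : D.t (D.rho D.o) = D.o := D.t_rho D.o
  refine ⟨D.rho D.o :: p, ?_, ⟨D.s1_rho D.o, ?_, ?_⟩, ?_⟩
  · rw [mem_lists, List.length_cons, hp]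
  · rw [D.s2_rho]
    exact ho
  · rw [e]
    exact h1
  · change D.en (D.t (D.rho D.o)) p = b
    rw [e]
    exact h2

theorem PT_mono' (D : FD I V) (X : Finset I) (ho : D.o ∈ X) (k i : ℕ) (b : I)
    (h : PT_R D X k b) : PT_R D X (k + i) b := by
  induction i with
  | zero => exact h
  | succ i ih => exact PT_mono D X ho (k + i) b ih

theorem PT_stable (D : FD I V) (X : Finset I) (j : ℕ)
    (hj : ∀ b, PT_R D X (j + 1) b → PT_R D X j b) (i : ℕ) (b : I)
    (h : PT_R D X (j + i) b) : PT_R D X j b := by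
  induction i generalizing b with
  | zero => exact h
  | succ i ih =>
    obtain ⟨v, h1, h2, h3⟩ := PT_succ' D X (j + i) b h
    have h4 := PT_succ D X j v (ih _ h1) h2
    rw [h3] at h4
    exact hj b h4

open Classical in
theorem PT_exists (D : FD I V) (X : Finset I) (ho : D.o ∈ X) (m : ℕ)
    (hm : Fintype.card I ≤ m) : ∃ j < m, ∀ b, PT_R D X (j + 1) b → PT_R D X j b := by
  by_contra hcon
  push Not at hcon
  have key : ∀ k ≤ m, k + 1 ≤ (univ.filter fun b => PT_R D X k b).card := by
    intro k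
    induction k with
    | zero =>
      intro _
      have : D.o ∈ univ.filter fun b => PT_R D X 0 b := by
        rw [mem_filter]
        exact ⟨mem_univ _, PT_zero D X⟩
      exact Finset.card_pos.2 ⟨_, this⟩
    | succ k ih =>
      intro hk
      have h1 := ih (by omega)
      obtain ⟨b, hb1, hb2⟩ := hcon k (by omega)
      have h2 : (univ.filter fun b => PT_R D X k b) ⊂ (univ.filter fun b => PT_R D X (k + 1) b) := by
        rw [Finset.ssubset_iff_of_subset]
        · refine ⟨b, ?_, ?_⟩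
          · rw [mem_filter]
            exact ⟨mem_univ _, hb1⟩
          · rw [mem_filter]
            exact fun h => hb2 h.2
        · intro x hx
          rw [mem_filter] at hx ⊢
          exact ⟨mem_univ _, PT_mono D X ho k x hx.2⟩
      have h3 := Finset.card_lt_card h2
      omega
  have h1 := key m le_rfl
  have h2 := Finset.card_le_univ (univ.filter fun b => PT_R D X m b)
  omega

theorem PT_dual (D : FD I V) (hR : D.Rg) (v : V) (a x b : I) (h1 : D.s1 v = D.du a)
    (h2 : D.s2 v = D.du x) (h3 : D.t v = D.du b) : ∃ l, D.s1 l = x ∧ D.s2 l = a ∧ D.t l = b := by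
  have e : D.mlt x a b = D.mlt (D.du a) (D.du x) (D.du b) := by
    rw [hR.frl x a b, hR.frr (D.du x) b a, hR.frl a (D.du b) (D.du x)]
  have hpos : 0 < D.mlt (D.du a) (D.du x) (D.du b) := by
    unfold FD.mlt
    apply Finset.card_pos.2
    exact ⟨v, by rw [mem_filter]; exact ⟨mem_univ _, h1, h2, h3⟩⟩
  rw [← e] at hpos
  unfold FD.mlt at hpos
  obtain ⟨l, hl⟩ := Finset.card_pos.1 hpos
  rw [mem_filter] at hl
  exact ⟨l, hl.2⟩

theorem PT_duo (D : FD I V) : D.du D.o = D.o := by
  have h := D.lam_unique (D.eta D.o) (D.s1_eta D.o)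
  rw [D.s2_eta] at h
  have h2 := D.t_eta D.o
  rw [h, D.t_lam] at h2
  exact h2

theorem PT_cnt (D : FD I V) (X : Finset I) (hR : D.Rg) (hX : ∀ x ∈ X, D.du x ∈ X) (k : ℕ) :
    ∀ b, PT_R D X k (D.du b) → D.cnt X k b ≠ 0 := by
  induction k with
  | zero =>
    intro b h
    have h1 := PT_zero' D X _ h
    have h2 : b = D.o := by
      rw [← D.du_du b, h1, PT_duo]
    unfold FD.cnt
    rw [if_pos h2]
    exact one_ne_zero
  | succ k ih =>
    intro b h
    obtain ⟨v, h1, h2, h3⟩ := PT_succ' D X k _ h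
    obtain ⟨l, l1, l2, l3⟩ := PT_dual D hR v (D.du (D.s1 v)) (D.du (D.s2 v)) b
      (D.du_du _).symm (D.du_du _).symm h3
    have h4 : D.cnt X k (D.s2 l) ≠ 0 := by
      apply ih
      rw [l2, D.du_du]
      exact h1
    unfold FD.cnt
    intro h0
    have h5 := (Finset.sum_eq_zero_iff.1 h0) l (by
      rw [mem_filter]
      exact ⟨mem_univ _, by rw [l1]; exact hX _ h2, l3⟩)
    exact h4 h5

end

theorem PT : PT_stmt := by
  intro I V _ _ _ _ D X m hR ho hX hgen hm
  obtain ⟨j, hj, hst⟩ := PT_exists D X ho m hm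
  have hall : ∀ b, PT_R D X m b := by
    intro b
    have h1 : ∃ k, PT_R D X k b := by
      have hb := hgen b
      induction hb with
      | unit => exact ⟨0, PT_zero D X⟩
      | mul v _ h2 ih =>
        obtain ⟨k, hk⟩ := ih
        exact ⟨k + 1, PT_succ D X k v hk h2⟩
    obtain ⟨k, hk⟩ := h1
    have h2 : PT_R D X (j + k) b := by
      have := PT_mono' D X ho k j b hk
      rwa [add_comm] at this
    have h3 := PT_stable D X j hst k b h2
    have h4 := PT_mono' D X ho j (m - j) b h3
    rwa [Nat.add_sub_cancel' hj.le] at h4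
  refine ⟨fun b => PT_cnt D X hR hX m b (hall _), ?_⟩
  choose bp hbp using hall
  exact ⟨bp, hbp⟩

end Pool.Agent.helper93.TV
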